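import Pool.Agent.Lib.MP_e6e291_co.D24.Lower

open Metric Pool.Agent.Lib.MP_e6e291_co

/-- In dimension 24 the supremum of the average kissing numbers `2E/N` of finite packings of balls
of arbitrary positive radii is 196560, and the kissing number is also 196560. -/
theorem Pool.Agent.Results.MP_e6e291_co.Kappa24.result :
    IsLUB {x : ℝ | ∃ P : Finset (EuclideanSpace ℝ (Fin 24) × ℝ), P.Nonempty ∧ IsPacking P ∧
      x = 2 * ((contactGraph P).edgeSet.ncard : ℝ) / P.card} 196560 ∧
    IsGreatest {n : ℕ | ∃ C : Finset (EuclideanSpace ℝ (Fin 24)), C.card = n ∧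
      (∀ c ∈ C, dist c 0 = 2) ∧ ∀ a ∈ C, ∀ b ∈ C, a ≠ b →
        Disjoint (interior (closedBall a 1)) (interior (closedBall b 1))} 196560 :=
  ⟨D24.kappa_isLUB, D24.kiss_lower, by
    rintro n ⟨C, rfl, h0, h1⟩
    exact D24.kiss_upper h0 h1⟩
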