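import Pool.Agent.Lib.MP_e6e291_co.E8

open Metric Pool.Agent.Lib.MP_e6e291_co

/-- In dimension 8 the supremum of the average kissing numbers `2E/N` of finite packings of balls
of arbitrary positive radii is 240, and the kissing number is also 240. -/
theorem Pool.Agent.Results.MP_e6e291_co.Kappa8.result :
    IsLUB {x : ℝ | ∃ P : Finset (EuclideanSpace ℝ (Fin 8) × ℝ), P.Nonempty ∧ IsPacking P ∧
      x = 2 * ((contactGraph P).edgeSet.ncard : ℝ) / P.card} 240 ∧
    IsGreatest {n : ℕ | ∃ C : Finset (EuclideanSpace ℝ (Fin 8)), C.card = n ∧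
      (∀ c ∈ C, dist c 0 = 2) ∧ ∀ a ∈ C, ∀ b ∈ C, a ≠ b →
        Disjoint (interior (closedBall a 1)) (interior (closedBall b 1))} 240 :=
  ⟨kappa_isLUB, kiss_lower, by
    rintro n ⟨C, rfl, h0, h1⟩
    exact kiss_upper h0 h1⟩
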